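import Pool.Agent.Lib.MP_e56372_nt.Dim.Dense4
import Pool.Agent.Lib.MP_e56372_nt.Dim.Wrap2
import Pool.Agent.Lib.MP_e56372_nt.Dim.Count4
import Pool.Agent.Lib.MP_e56372_nt.Dim.Prim

set_option autoImplicit false
open Filter Topology

namespace Pool.Agent.Results.MP_e56372_nt.DimDropSharp
open Pool.Agent.Lib.MP_e56372_nt Pool.Agent.Lib.MP_e56372_nt.Dim

theorem result (κ : ℝ) (hκ : 1 < κ) : ∃ c0 : ℝ, 0 < c0 ∧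
    dimH {p : ℝ × ℝ | ∃ᶠ X : ℝ in atTop, ∃ c ε : ℝ, 0 < c ∧ c ≤ c0 ∧ ε ≤ c ^ κ ∧
      1 ≤ ε * Real.log X ∧ ∀ Y : ℝ, X ≤ Y → Y ≤ X ^ (1 + ε / c ^ κ) →
        ∃ Q : ℝ, Y ≤ Q ∧ Q ≤ Y ^ (1 + ε) ∧ c ≤ Q * mmin p.1 p.2 Q} < 2 := by
  obtain ⟨m, hm, hd⟩ := dense4 κ hκ
  obtain ⟨θ, h1, h4, lam0, hc⟩ := count4 m hm
  obtain ⟨c0, h0, hd⟩ := hd lam0
  refine ⟨c0, h0, lt_of_le_of_lt (dimH_mono ?_) (dimH_lt_of_count2 θ h1 h4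
    (fun n ξ ζ => ∃ lam G : ℕ, lam0 ≤ lam ∧ 2 ^ lam ≤ G ∧ G * 2 ^ ((m + 150) * lam) ≤ n ∧
      DenseW (m * lam) G (G * 2 ^ ((m + 148) * lam)) n ξ ζ) ?_ hc)⟩
  · intro p hp
    exact hd p.1 p.2 hp
  · rintro n ξ ζ j k ⟨lam, G, a1, a2, a3, h⟩
    refine ⟨lam, G, a1, a2, a3, fun T hT1 hT2 => ?_⟩
    obtain ⟨T', b1, b2, b3⟩ := h T hT1 hT2
    exact ⟨T', b1, b2, by unfold PrimGood at b3 ⊢; rw [mmin_shift]; exact b3⟩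

end Pool.Agent.Results.MP_e56372_nt.DimDropSharp
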