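import Pool.Agent.Lib.MP_e56372_nt.Fd.Trade

set_option autoImplicit false
open Filter Topology

namespace Pool.Agent.Results.MP_e56372_nt.FibreTrade
open Pool.Agent.Lib.MP_e56372_nt

theorem result (ζ : ℝ) (hζ : Bad ζ) (τ : ℝ → ℝ) (h0 : ∀ Q, 0 < τ Q) (h1 : ∀ Q, τ Q ≤ 1)
    (h2 : Tendsto (fun Q => τ Q * Real.log Q) atTop atTop) :
    dimH {ξ : ℝ | Bad ξ ∧ ∃ c : ℝ, 0 < c ∧ ∃ Q : ℕ → ℝ, (∀ k, 1 ≤ Q k) ∧ Tendsto Q atTop atTop ∧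
      ∀ k, Q (k + 1) ≤ Q k ^ (1 + τ (Q k)) ∧ c * τ (Q k) ^ 12 ≤ Q k * mmin ξ ζ (Q k)} = 1 :=
  Fd.fibre_trade ζ hζ τ h0 h1 h2

end Pool.Agent.Results.MP_e56372_nt.FibreTrade
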