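import Pool.Agent.Lib.MP_e56372_nt.Fd.MainB

set_option autoImplicit false
open Filter Topology

namespace Pool.Agent.Results.MP_e56372_nt.FullExp
open Pool.Agent.Lib.MP_e56372_nt

theorem result (θ : ℝ) (hθ : 0 < θ) :
    dimH {p : ℝ × ℝ | Bad p.1 ∧ Bad p.2 ∧ ∃ Q : ℕ → ℝ, (∀ k, 1 ≤ Q k) ∧ Tendsto Q atTop atTop ∧
      Tendsto (fun k => Real.log (Q (k + 1)) / Real.log (Q k)) atTop (𝓝 (1 + θ)) ∧
      ∃ L : ℝ, 0 < L ∧ Tendsto (fun k => Q k * mmin p.1 p.2 (Q k)) atTop (𝓝 L)} = 2 :=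
  Fd.full_lim_bad θ hθ

end Pool.Agent.Results.MP_e56372_nt.FullExp
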