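import Pool.Agent.Lib.MP_e56372_nt.Fd.MainB

set_option autoImplicit false
open Filter Topology

namespace Pool.Agent.Results.MP_e56372_nt.FullSlow
open Pool.Agent.Lib.MP_e56372_nt

theorem result (ω : ℝ → ℝ) (hω : Tendsto ω atTop atTop) :
    dimH {p : ℝ × ℝ | Bad p.1 ∧ Bad p.2 ∧ ∃ Q : ℕ → ℝ, (∀ k, 1 ≤ Q k) ∧ Tendsto Q atTop atTop ∧
      Tendsto (fun k => Real.log (Q (k + 1)) / Real.log (Q k)) atTop (𝓝 1) ∧
      ∀ k, 1 ≤ ω (Q k) * (Q k * mmin p.1 p.2 (Q k))} = 2 :=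
  Fd.full_slow_bad ω hω

end Pool.Agent.Results.MP_e56372_nt.FullSlow
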